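import Pool.Agent.Helper69.VX.St

/-!
# Project VX (MP_e12aa9_pr), module STP (one step)
-/

set_option autoImplicit false

namespace Pool.Agent.Helper38.VX

open Finset Filter Pool.Agent.Helper82.CN Pool.Agent.Helper11.PV Pool.Agent.Helper69.VX

lemma not_last_mem_lo {N m : ℕ} (hm : m ≤ N) : Fin.last N ∉ (lo (N + 1) m : Set (Fin (N + 1))) := by
  simp [lo, hm]

lemma lo_swap {N m : ℕ} (hm : m ≤ N) :
    (Equiv.swap (⟨m, Nat.lt_succ_of_le hm⟩ : Fin (N + 1)) (Fin.last N)) ''
      (lo (N + 1) (m + 1) : Set (Fin (N + 1))) =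
      insert (Fin.last N) (lo (N + 1) m : Set (Fin (N + 1))) := by
  ext v
  constructor
  · rintro ⟨w, hw, rfl⟩
    have hw' : w.val < m + 1 := by simpa [lo] using hw
    by_cases h1 : w = ⟨m, Nat.lt_succ_of_le hm⟩
    · rw [h1, Equiv.swap_apply_left]
      exact Set.mem_insert _ _
    · by_cases h2 : w = Fin.last N
      · exfalso
        apply h1
        rw [h2] at hw' ⊢
        have : (Fin.last N).val = N := rfl
        ext
        simp at hw' ⊢
        omega
      · rw [Equiv.swap_apply_of_ne_of_ne h1 h2]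
        right
        have h3 : w.val ≠ m := fun h => h1 (Fin.ext h)
        simp only [lo, coe_filter, mem_univ, true_and]
        show w.val < m
        omega
  · intro hv
    rcases hv with rfl | hv
    · refine ⟨⟨m, Nat.lt_succ_of_le hm⟩, ?_, Equiv.swap_apply_left _ _⟩
      simp [lo]
    · have hv' : v.val < m := by simpa [lo] using hv
      refine ⟨v, ?_, ?_⟩
      · simp only [lo, coe_filter, mem_univ, true_and]
        show v.val < m + 1
        omega
      · apply Equiv.swap_apply_of_ne_of_ne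
        · intro h
          rw [h] at hv'
          exact lt_irrefl _ hv'
        · intro h
          rw [h] at hv'
          have : (Fin.last N).val = N := rfl
          omega

lemma compl_inter {V : Type} [DecidableEq V] (A : Finset V) {u : V} (hu : u ∉ A) :
    ((A.image (fun w => s(u, w)) : Finset (Sym2 V)) : Set (Sym2 V))ᶜ ∩
      EK (insert u (A : Set V)) = EK (A : Set V) := by
  ext e
  induction e using Sym2.ind with
  | _ a b =>
    rw [Set.mem_inter_iff, mem_EK, mem_EK, Set.mem_compl_iff]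
    simp only [coe_image, Set.mem_image, mem_coe, Set.mem_insert_iff]
    constructor
    · rintro ⟨h1, h2, ha, hb⟩
      refine ⟨h2, ?_, ?_⟩
      · rcases ha with rfl | ha
        · exfalso
          rcases hb with rfl | hb
          · exact h2 rfl
          · exact h1 ⟨b, hb, rfl⟩
        · exact ha
      · rcases hb with rfl | hb
        · exfalso
          rcases ha with rfl | ha
          · exact h2 rfl
          · exact h1 ⟨a, ha, Sym2.eq_swap⟩
        · exact hb
    · rintro ⟨h2, ha, hb⟩
      refine ⟨?_, h2, Or.inr ha, Or.inr hb⟩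
      rintro ⟨w, hw, h⟩
      rw [Sym2.eq_iff] at h
      rcases h with ⟨h, -⟩ | ⟨h, -⟩
      · exact hu (h ▸ ha)
      · exact hu (h ▸ hb)

lemma EK_insert_subset {V : Type} (A : Set V) (u : V) : EK (insert u A) ⊆ LA u A := by
  intro e
  induction e using Sym2.ind with
  | _ a b =>
    intro h
    rw [mem_EK] at h
    obtain ⟨h1, ha, hb⟩ := h
    by_cases h2 : a = u
    · right
      subst h2
      rcases hb with rfl | hb
      · exact absurd rfl h1
      · exact ⟨b, hb, rfl⟩
    · by_cases h3 : b = u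
      · right
        subst h3
        rcases ha with rfl | ha
        · exact absurd rfl h1
        · exact ⟨a, ha, Sym2.eq_swap⟩
      · left
        exact mem_EK.mpr ⟨h1, h2, h3⟩

lemma EK_inter_ne {V : Type} (A : Set V) {u : V} (hu : u ∉ A) :
    EK (insert u A) ∩ EK {v | v ≠ u} = EK A := by
  ext e
  induction e using Sym2.ind with
  | _ a b =>
    rw [Set.mem_inter_iff, mem_EK, mem_EK, mem_EK]
    constructor
    · rintro ⟨⟨h1, ha, hb⟩, ⟨-, ha', hb'⟩⟩
      exact ⟨h1, Set.mem_of_mem_insert_of_ne ha ha', Set.mem_of_mem_insert_of_ne hb hb'⟩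
    · rintro ⟨h1, ha, hb⟩
      refine ⟨⟨h1, Or.inr ha, Or.inr hb⟩, h1, ?_, ?_⟩
      · rintro rfl
        exact hu ha
      · rintro rfl
        exact hu hb

lemma AV_sub {ι : Type} [Fintype ι] [DecidableEq ι] (p : ℝ) (K : Set ι) (F G : (ι → Bool) → ℝ) :
    AV p K (fun ω => F ω - G ω) = fun ω => AV p K F ω - AV p K G ω := by
  funext ω
  unfold AV
  exact EE_sub p _ _

theorem hSTP : StPLL → StVOS → StPIV → StSTP := by
  intro hPLL hVOS hPIV p N l m s h0 h1 hs hm
  set A : Finset (Fin (N + 1)) := lo (N + 1) m with hA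
  have huA : Fin.last N ∉ (A : Set (Fin (N + 1))) := not_last_mem_lo hm
  have huA' : Fin.last N ∉ A := fun h => huA (by exact_mod_cast h)
  set u : Fin (N + 1) := Fin.last N with hu
  set F : (Sym2 (Fin (N + 1)) → Bool) → ℝ := PH l with hF
  have ha : NN p (EK (lo (N + 1) (m + 1) : Set (Fin (N + 1)))) F =
      NN p (EK (insert u (A : Set (Fin (N + 1))))) F := by
    rw [NN_perm p (s2 (Equiv.swap (⟨m, Nat.lt_succ_of_le hm⟩ : Fin (N + 1)) (Fin.last N)))
      (EK (lo (N + 1) (m + 1) : Set (Fin (N + 1)))) F, s2_EK, lo_swap hm]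
    simp only [hF, PH_perm]
    rfl
  set h : (Sym2 (Fin (N + 1)) → Bool) → ℝ := AV p (EK (insert u (A : Set (Fin (N + 1))))) F with hh
  set K : Finset (Sym2 (Fin (N + 1))) := A.image (fun w => s(u, w)) with hK
  have hKc : ((K : Set (Sym2 (Fin (N + 1))))ᶜ) ∩ EK (insert u (A : Set (Fin (N + 1)))) =
      EK (A : Set (Fin (N + 1))) := compl_inter A huA'
  have hEh : EE p (fun ω => h ω ^ 2) = NN p (EK (insert u (A : Set (Fin (N + 1))))) F := rfl
  have hNh : NN p ((K : Set (Sym2 (Fin (N + 1))))ᶜ) h = NN p (EK (A : Set (Fin (N + 1)))) F := by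
    rw [hh, NN_AV, hKc]
  have hDD : ∀ w ∈ A, DD h s(u, w) =
      AV p (EK (insert u (A : Set (Fin (N + 1))))) (DD F s(u, w)) := by
    intro w hw
    rw [hh]
    refine DD_AV p ?_ F
    rw [mem_EK]
    refine ⟨?_, Set.mem_insert _ _, Or.inr hw⟩
    rintro rfl
    exact huA' hw
  have hFnn : ∀ (e : Sym2 (Fin (N + 1))) (ω : Sym2 (Fin (N + 1)) → Bool), 0 ≤ DD F e ω := by
    intro e ω
    rcases (hPIV (Fin (N + 1)) l).2.1 e ω with h | h
    · rw [hF, h]
    · rw [hF, h]; norm_num
  rw [ha]
  constructor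
  · have key := hPLL p (Sym2 (Fin (N + 1))) h K s h0 h1 hs
    rw [hEh, hNh] at key
    refine key.trans ?_
    have hinj : ∀ x ∈ A, ∀ y ∈ A, s(u, x) = s(u, y) → x = y := by
      intro x _ y _ hxy
      exact Sym2.congr_right.mp hxy
    rw [hK, Finset.sum_image hinj, Finset.sum_image hinj, ← hK]
    refine add_le_add ?_ ?_
    · refine mul_le_mul_of_nonneg_left ?_ hs.le
      refine Finset.sum_le_sum fun w hw => le_of_eq ?_
      have h2 : (fun ω => |DD h s(u, w) ω|) =
          AV p (EK (insert u (A : Set (Fin (N + 1))))) (DD F s(u, w)) := by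
        rw [hDD w hw]
        funext ω
        exact abs_of_nonneg (AV_nonneg h0.le h1.le _ (hFnn _) ω)
      rw [h2, NN_AV, hKc]
    · refine mul_le_mul_of_nonneg_left ?_ (by norm_num)
      refine Finset.sum_le_sum fun w hw => ?_
      rw [hDD w hw]
      exact NN_mono h0.le h1.le (EK_insert_subset _ _) _
  · have hG : (fun ω => h ω - AV p (EK (A : Set (Fin (N + 1)))) h ω) =
        AV p (EK (insert u (A : Set (Fin (N + 1)))))
          (fun ω => F ω - AV p (EK {v | v ≠ u}) F ω) := by
      have h3 : EK (A : Set (Fin (N + 1))) ∩ EK (insert u (A : Set (Fin (N + 1)))) =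
          EK (A : Set (Fin (N + 1))) :=
        Set.inter_eq_left.mpr (EK_mono (Set.subset_insert _ _))
      have h8 : AV p (EK (insert u (A : Set (Fin (N + 1))))) (AV p (EK {v | v ≠ u}) F) =
          AV p (EK (A : Set (Fin (N + 1)))) F := by
        rw [AV_AV, EK_inter_ne _ huA]
      have h9 : AV p (EK (A : Set (Fin (N + 1)))) h = AV p (EK (A : Set (Fin (N + 1)))) F := by
        rw [hh, AV_AV, h3]
      have h10 := AV_sub p (EK (insert u (A : Set (Fin (N + 1))))) F (AV p (EK {v | v ≠ u}) F)
      rw [h10, h8, h9]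
    have h4 := pyth p (EK (A : Set (Fin (N + 1)))) h
    have h5 : NN p (EK (A : Set (Fin (N + 1)))) h = NN p (EK (A : Set (Fin (N + 1)))) F := by
      rw [hh, NN_AV, Set.inter_eq_left.mpr (EK_mono (Set.subset_insert _ _))]
    rw [hEh, h5] at h4
    rw [← h4]
    have h6 : EE p (fun ω => (h ω - AV p (EK (A : Set (Fin (N + 1)))) h ω) ^ 2) =
        NN p (EK (insert u (A : Set (Fin (N + 1)))))
          (fun ω => F ω - AV p (EK {v | v ≠ u}) F ω) := by
      unfold NN
      rw [← hG]
    rw [h6]
    refine (NN_le h0.le h1.le _ _).trans ?_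
    have h7 := pyth p (EK {v | v ≠ u}) F
    rw [h7]
    exact hVOS p (N + 1) l u h0.le h1.le

end Pool.Agent.Helper38.VX
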